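import Pool.Agent.K3h71.PP.Defs

/-! # PP brick GENQ: the rank of a class group generated by the primes over one element, with
rational relations. Variant of `Pool.Agent.K3h82.CP.RkA`. -/

set_option autoImplicit false
set_option linter.all false

namespace Pool.Agent.K3h24.PP

open UniqueFactorizationMonoid Pool.Agent.K3h82.CP Pool.Agent.K3h71.PP

section
variable {D : Type} [CommRing D] [IsDedekindDomain D]
variable {ι κ : Type} [Fintype ι] [Fintype κ]

/-- The primes over `β`, and elements which generate the principal ideals with support over `β`,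
without independence. -/
structure Base (P : ι → Ideal D) (β : D) (u : κ → D) : Prop where
  ne : β ≠ 0
  prime : ∀ i, (P i).IsPrime
  mem : ∀ i, β ∈ P i
  inj : Function.Injective P
  all : ∀ Q : Ideal D, Q.IsPrime → β ∈ Q → ∃ i, P i = Q
  gen : ∀ Q : Ideal D, Q.IsPrime → Q ≠ 0 → β ∉ Q → ∃ (x : D) (I : Ideal D) (k : ℕ), x ≠ 0 ∧
    Ideal.span {x} = Q * I ∧ I ∣ Ideal.span {β} ^ k
  dvd : ∀ j, u j ∣ β
  rel : ∀ (a : D) (N : ℕ), a ∣ β ^ N → ∃ e f : κ → ℕ,
    Associated (a * ∏ j, u j ^ e j) (∏ j, u j ^ f j)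

variable {P : ι → Ideal D} {β : D} {u : κ → D}

theorem Base.P_ne (G : Base P β u) (i : ι) : P i ≠ 0 := by
  intro h
  have h1 := G.mem i
  rw [h, Ideal.zero_eq_bot, Ideal.mem_bot] at h1
  exact G.ne h1

theorem Base.u_ne (G : Base P β u) (j : κ) : u j ≠ 0 := by
  intro h
  have h1 := G.dvd j
  rw [h, zero_dvd_iff] at h1
  exact G.ne h1

theorem Base.rep (G : Base P β u) {I : Ideal D} {N : ℕ} (hI : I ∣ Ideal.span {β} ^ N) :
    I = ∏ i, P i ^ cnt (P i) I := by
  classical
  have hβ0 : Ideal.span {β} ^ N ≠ (0 : Ideal D) := pow_ne_zero _ (span_ne G.ne)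
  have hI0 : I ≠ 0 := ne_zero_of_dvd_ne_zero hβ0 hI
  have h1 : I = ∏ Q ∈ (normalizedFactors I).toFinset, Q ^ (normalizedFactors I).count Q := by
    conv_lhs => rw [← prod_normalizedFactors_eq_self hI0]
    rw [Finset.prod_multiset_count]
  have h2 : (normalizedFactors I).toFinset ⊆ Finset.univ.image P := by
    intro Q hQ
    rw [Multiset.mem_toFinset] at hQ
    have h3 := prime_of_normalized_factor Q hQ
    have h4 : Q ∣ Ideal.span {β} ^ N := (dvd_of_mem_normalizedFactors hQ).trans hI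
    have h5 := h3.dvd_of_dvd_pow h4
    rw [Ideal.dvd_iff_le, Ideal.span_singleton_le_iff_mem] at h5
    obtain ⟨i, hi⟩ := G.all Q (Ideal.isPrime_of_prime h3) h5
    exact Finset.mem_image.2 ⟨i, Finset.mem_univ _, hi⟩
  conv_lhs => rw [h1]
  rw [Finset.prod_subset h2, Finset.prod_image]
  · rfl
  · intro i _ i' _ h
    exact G.inj h
  · intro Q _ hQ
    rw [Multiset.mem_toFinset] at hQ
    rw [Multiset.count_eq_zero_of_notMem hQ, pow_zero]

theorem Base.rep_eq (G : Base P β u) {I J : Ideal D} {N N' : ℕ} (hI : I ∣ Ideal.span {β} ^ N)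
    (hJ : J ∣ Ideal.span {β} ^ N') (h : ∀ i, cnt (P i) I = cnt (P i) J) : I = J := by
  rw [G.rep hI, G.rep hJ]
  exact Finset.prod_congr rfl fun i _ => by rw [h i]

theorem Base.cl_rep (G : Base P β u) {I : Ideal D} {N : ℕ} (hI : I ∣ Ideal.span {β} ^ N) :
    cl I = Psi P fun i => (cnt (P i) I : ℤ) := by
  rw [Psi_apply]
  conv_lhs => rw [G.rep hI]
  rw [cl_prod _ _ fun i => pow_ne_zero _ (G.P_ne i)]
  exact Finset.sum_congr rfl fun i _ => cl_pow (G.P_ne i) _

theorem Base.surj (G : Base P β u) : Function.Surjective (Psi P) := by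
  classical
  have key : ∀ I : Ideal D, I ≠ 0 → ∃ a, Psi P a = cl I := by
    intro I
    induction I using UniqueFactorizationMonoid.induction_on_prime with
    | h₁ => intro h; exact (h rfl).elim
    | h₂ I hI =>
      intro _
      refine ⟨0, ?_⟩
      rw [Ideal.isUnit_iff.1 hI, ← Ideal.one_eq_top, cl_one, map_zero]
    | h₃ I Q hI hQ ih =>
      intro _
      obtain ⟨a, ha⟩ := ih hI
      obtain ⟨b, hb⟩ : ∃ b, Psi P b = cl Q := by
        have hQp := Ideal.isPrime_of_prime hQ
        by_cases h : β ∈ Q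
        · obtain ⟨i, hi⟩ := G.all Q hQp h
          refine ⟨Pi.single i 1, ?_⟩
          rw [Psi_apply, Finset.sum_eq_single i]
          · rw [Pi.single_eq_same, one_smul, hi]
          · intro i' _ h'
            rw [Pi.single_eq_of_ne h', zero_smul]
          · intro h'
            exact (h' (Finset.mem_univ i)).elim
        · obtain ⟨x, J, k, hx, hxJ, hJ⟩ := G.gen Q hQp hQ.ne_zero h
          have hJ0 : J ≠ 0 := ne_zero_of_dvd_ne_zero (pow_ne_zero _ (span_ne G.ne)) hJ
          refine ⟨-fun i => (cnt (P i) J : ℤ), ?_⟩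
          rw [map_neg, ← G.cl_rep hJ, neg_eq_iff_add_eq_zero, add_comm, ← cl_mul hQ.ne_zero hJ0,
            ← hxJ, cl_span hx]
      exact ⟨b + a, by rw [map_add, ha, hb, cl_mul hQ.ne_zero hI]⟩
  intro c
  obtain ⟨⟨I, hI⟩, hc⟩ := ClassGroup.mk0_surjective (Additive.toMul c)
  obtain ⟨a, ha⟩ := key I (nonZeroDivisors.ne_zero hI)
  refine ⟨a, ?_⟩
  rw [ha, cl_def (nonZeroDivisors.ne_zero hI)]
  exact congrArg Additive.ofMul hc

theorem Base.cnt_prod_u (G : Base P β u) (i : ι) (e : κ → ℕ) :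
    (cnt (P i) (Ideal.span {∏ j, u j ^ e j}) : ℤ) = Em P u (fun j => (e j : ℤ)) i := by
  rw [Em_apply, ← Ideal.prod_span_singleton, cnt_prod _ _ _ fun j => span_ne (pow_ne_zero _ (G.u_ne j))]
  push_cast
  refine Finset.sum_congr rfl fun j _ => ?_
  rw [← Ideal.span_singleton_pow, cnt_pow _ (span_ne (G.u_ne j))]
  push_cast
  rfl

theorem Base.prod_dvd (G : Base P β u) (e : κ → ℕ) : ∃ N, ∏ j, u j ^ e j ∣ β ^ N := by
  refine ⟨∑ j, e j, ?_⟩
  rw [← Finset.prod_pow_eq_pow_sum]
  exact Finset.prod_dvd_prod_of_dvd _ _ fun j _ => pow_dvd_pow_of_dvd (G.dvd j) _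

theorem Base.prod_ne (G : Base P β u) (e : κ → ℕ) : ∏ j, u j ^ e j ≠ 0 :=
  Finset.prod_ne_zero_iff.2 fun j _ => pow_ne_zero _ (G.u_ne j)

theorem Base.rel_mem (G : Base P β u) {a : D} {N : ℕ} (ha : a ∣ β ^ N) :
    ∃ c, Em P u c = fun i => (cnt (P i) (Ideal.span {a}) : ℤ) := by
  obtain ⟨e, f, h⟩ := G.rel a N ha
  have ha0 : a ≠ 0 := ne_zero_of_dvd_ne_zero (pow_ne_zero _ G.ne) ha
  rw [← Ideal.span_singleton_eq_span_singleton, ← Ideal.span_singleton_mul_span_singleton] at h
  refine ⟨(fun j => (f j : ℤ)) - fun j => (e j : ℤ), ?_⟩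
  funext i
  have h1 := congrArg (cnt (P i)) h
  rw [cnt_mul _ (span_ne ha0) (span_ne (G.prod_ne e))] at h1
  have h2 := G.cnt_prod_u i e
  have h3 := G.cnt_prod_u i f
  rw [map_sub, Pi.sub_apply, ← h2, ← h3, ← h1]
  push_cast
  ring

theorem Base.ker_eq (G : Base P β u) : LinearMap.ker (Psi P) = LinearMap.range (Em P u) := by
  classical
  apply le_antisymm
  · intro a ha
    rw [LinearMap.mem_ker, Psi_apply] at ha
    have hI0 : ∀ e : ι → ℕ, ∏ i, P i ^ e i ≠ 0 := fun e =>
      Finset.prod_ne_zero_iff.2 fun i _ => pow_ne_zero _ (G.P_ne i)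
    have hIdv : ∀ e : ι → ℕ, ∏ i, P i ^ e i ∣ Ideal.span {β} ^ (∑ i, e i) := by
      intro e
      rw [← Finset.prod_pow_eq_pow_sum]
      refine Finset.prod_dvd_prod_of_dvd _ _ fun i _ => pow_dvd_pow_of_dvd ?_ _
      rw [Ideal.dvd_iff_le, Ideal.span_singleton_le_iff_mem]
      exact G.mem i
    have hIcl : ∀ e : ι → ℕ, cl (∏ i, P i ^ e i) = ∑ i, (e i : ℤ) • cl (P i) := by
      intro e
      rw [cl_prod _ _ fun i => pow_ne_zero _ (G.P_ne i)]
      exact Finset.sum_congr rfl fun i _ => cl_pow (G.P_ne i) _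
    have hIcnt : ∀ (e : ι → ℕ) (i : ι), cnt (P i) (∏ i, P i ^ e i) = e i := by
      intro e i
      rw [cnt_prod _ _ _ fun i => pow_ne_zero _ (G.P_ne i), Finset.sum_eq_single i]
      · rw [cnt_pow _ (G.P_ne i)]
        have h1 : cnt (P i) (P i) = 1 := by
          have h2 : Irreducible (P i) := (Ideal.prime_of_isPrime (G.P_ne i) (G.prime i)).irreducible
          unfold cnt
          rw [normalizedFactors_irreducible h2, normalize_eq, Multiset.count_singleton_self]
        rw [h1, mul_one]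
      · intro i' _ h'
        rw [cnt_pow _ (G.P_ne i')]
        have h1 : cnt (P i) (P i') = 0 := by
          have h2 : Irreducible (P i') :=
            (Ideal.prime_of_isPrime (G.P_ne i') (G.prime i')).irreducible
          unfold cnt
          rw [normalizedFactors_irreducible h2, normalize_eq, Multiset.count_singleton, if_neg]
          intro h3
          exact h' (G.inj h3).symm
        rw [h1, mul_zero]
      · intro h'
        exact (h' (Finset.mem_univ i)).elim
    set I₁ := ∏ i, P i ^ (a i).toNat with hI₁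
    set I₂ := ∏ i, P i ^ (-a i).toNat with hI₂
    have hcl : cl I₁ = cl I₂ := by
      rw [hI₁, hI₂, hIcl, hIcl, ← sub_eq_zero, ← Finset.sum_sub_distrib, ← ha]
      refine Finset.sum_congr rfl fun i _ => ?_
      rw [← sub_smul]
      congr 1
      omega
    obtain ⟨x, y, hx, hy, hxy⟩ := cl_eq (hI0 _) (hI0 _) hcl
    obtain ⟨J, hJ⟩ := hIdv fun i => (-a i).toNat
    rw [← hI₂] at hJ
    set N := ∑ i, (-a i).toNat with hN
    have hJ0 : J ≠ 0 := by
      intro h
      rw [h, mul_zero] at hJ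
      exact pow_ne_zero _ (span_ne G.ne) hJ
    have h1 : Ideal.span {x} * (I₁ * J) = Ideal.span {y * β ^ N} := by
      rw [← mul_assoc, hxy, mul_assoc, ← hJ, Ideal.span_singleton_pow,
        Ideal.span_singleton_mul_span_singleton]
    have h2 : x ∣ y * β ^ N := by
      have h7 : Ideal.span {y * β ^ N} ≤ Ideal.span {x} := by
        rw [← h1]
        exact Ideal.mul_le_left
      exact Ideal.span_singleton_le_span_singleton.1 h7
    obtain ⟨a₀, ha₀⟩ := h2
    have h3 : I₁ * J = Ideal.span {a₀} := by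
      rw [ha₀, ← Ideal.span_singleton_mul_span_singleton] at h1
      exact mul_left_cancel₀ (span_ne hx) h1
    have h4 : a₀ ∣ β ^ ((∑ i, (a i).toNat) + N) := by
      have h5 : Ideal.span {a₀} ∣ Ideal.span {β} ^ (∑ i, (a i).toNat) * Ideal.span {β} ^ N := by
        rw [← h3]
        refine mul_dvd_mul (hIdv _) ?_
        rw [hJ]
        exact dvd_mul_left _ _
      rw [← pow_add, Ideal.span_singleton_pow, Ideal.dvd_iff_le,
        Ideal.span_singleton_le_span_singleton] at h5
      exact h5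
    obtain ⟨c, hc⟩ := G.rel_mem h4
    obtain ⟨c', hc'⟩ := G.rel_mem (a := β ^ N) (N := N) dvd_rfl
    refine ⟨c - c', ?_⟩
    funext i
    rw [map_sub, Pi.sub_apply, hc, hc']
    have e1 : cnt (P i) (Ideal.span {a₀}) = (a i).toNat + cnt (P i) J := by
      rw [← h3, cnt_mul _ (hI0 _) hJ0, hIcnt]
    have e2 : cnt (P i) (Ideal.span {β ^ N}) = (-a i).toNat + cnt (P i) J := by
      rw [← Ideal.span_singleton_pow, hJ, cnt_mul _ (hI0 _) hJ0, hIcnt]
    simp only
    rw [e1, e2]
    push_cast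
    omega
  · rintro _ ⟨c, rfl⟩
    rw [LinearMap.mem_ker]
    have h1 : ∀ j, Psi P (fun i => (cnt (P i) (Ideal.span {u j}) : ℤ)) = 0 := by
      intro j
      have h2 : Ideal.span {u j} ∣ Ideal.span {β} ^ 1 := span_dvd (by rw [pow_one]; exact G.dvd j)
      rw [← G.cl_rep h2, cl_span (G.u_ne j)]
    unfold Em
    rw [Fintype.linearCombination_apply, map_sum]
    exact Finset.sum_eq_zero fun j _ => by rw [map_smul, h1, smul_zero]


/-- `c ↦ Em c` is determined by the ideals. -/
theorem Base.em_zero (G : Base P β u) {c : κ → ℤ} (hc : Em P u c = 0) :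
    Associated (∏ j, u j ^ (c j).toNat) (∏ j, u j ^ (-c j).toNat) := by
  obtain ⟨N, hN⟩ := G.prod_dvd fun j => (c j).toNat
  obtain ⟨N', hN'⟩ := G.prod_dvd fun j => (-c j).toNat
  have h1 : Ideal.span {∏ j, u j ^ (c j).toNat} = Ideal.span {∏ j, u j ^ (-c j).toNat} := by
    refine G.rep_eq (span_dvd hN) (span_dvd hN') fun i => ?_
    have e1 := G.cnt_prod_u i fun j => (c j).toNat
    have e2 := G.cnt_prod_u i fun j => (-c j).toNat
    have e3 : Em P u (fun j => ((c j).toNat : ℤ)) i - Em P u (fun j => ((-c j).toNat : ℤ)) i = 0 := by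
      rw [← Pi.sub_apply, ← map_sub]
      have : ((fun j => ((c j).toNat : ℤ)) - fun j => ((-c j).toNat : ℤ)) = c := by
        funext j
        show ((c j).toNat : ℤ) - ((-c j).toNat : ℤ) = c j
        omega
      rw [this, hc]
      rfl
    have e4 : (cnt (P i) (Ideal.span {∏ j, u j ^ (c j).toNat}) : ℤ) =
        cnt (P i) (Ideal.span {∏ j, u j ^ (-c j).toNat}) := by
      rw [e1, e2]
      linarith
    exact_mod_cast e4
  rwa [Ideal.span_singleton_eq_span_singleton] at h1

end

section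
variable {D : Type} [CommRing D] [IsDedekindDomain D]
variable {ι κ τ : Type} [Fintype ι] [Fintype κ] [Fintype τ]
variable {P : ι → Ideal D} {β : D} {u : κ → D} {j0 : τ → κ}

theorem toBase (G : GensQ P β u j0) : Base P β u :=
  ⟨G.ne, G.prime, G.mem, G.inj, G.all, G.gen, G.dvd, G.rel⟩

/-- extension by zero of functions on the complement of the image of `j0` -/
noncomputable def ext (j0 : τ → κ) : ({j : κ // ∀ t, j0 t ≠ j} → ℤ) →ₗ[ℤ] (κ → ℤ) :=
  Function.ExtendByZero.linearMap ℤ (fun j : {j : κ // ∀ t, j0 t ≠ j} => (j : κ))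

theorem ext_j0 (c : {j : κ // ∀ t, j0 t ≠ j} → ℤ) (t : τ) : ext j0 c (j0 t) = 0 := by
  unfold ext
  rw [Function.ExtendByZero.linearMap_apply, Function.extend_apply']
  · rfl
  · rintro ⟨⟨j, hj⟩, h⟩
    exact hj t h.symm

theorem ext_apply (c : {j : κ // ∀ t, j0 t ≠ j} → ℤ) (j : {j : κ // ∀ t, j0 t ≠ j}) :
    ext j0 c j = c j := by
  unfold ext
  rw [Function.ExtendByZero.linearMap_apply]
  exact Function.Injective.extend_apply Subtype.val_injective _ _ j

theorem mem_ext {c : κ → ℤ} (hc : ∀ t, c (j0 t) = 0) : ext j0 (fun j => c j) = c := by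
  funext j
  by_cases h : ∀ t, j0 t ≠ j
  · exact ext_apply (fun j => c j) ⟨j, h⟩
  · push Not at h
    obtain ⟨t, rfl⟩ := h
    rw [ext_j0, hc]

theorem emExt_inj (G : GensQ P β u j0) : Function.Injective ((Em P u).comp (ext j0)) := by
  rw [injective_iff_map_eq_zero]
  intro c hc
  rw [LinearMap.comp_apply] at hc
  have h1 := (toBase G).em_zero hc
  obtain ⟨h2, h3⟩ := G.ind _ _ (fun t => by rw [ext_j0]; simp) (fun j => by omega) h1
  funext j
  have h4 := congrFun h2 j
  have h5 := congrFun h3 j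
  rw [← ext_apply c j]
  simp only [Pi.zero_apply] at h4 h5 ⊢
  omega

open Classical in
theorem red_mem (G : GensQ P β u j0) (t : τ) : ∃ m : ℕ, 0 < m ∧
    (m : ℤ) • Em P u (Pi.single (M := fun _ : κ => ℤ) (j0 t) 1) ∈
      LinearMap.range ((Em P u).comp (ext j0)) := by
  classical
  obtain ⟨m, e, f, hm, hef, h⟩ := G.red t
  refine ⟨m, hm, ?_⟩
  have hB := toBase G
  rw [← Ideal.span_singleton_eq_span_singleton, ← Ideal.span_singleton_mul_span_singleton] at h
  refine ⟨fun j => (f j : ℤ) - e j, ?_⟩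
  have h0 : ext j0 (fun j => (f j : ℤ) - e j) = (fun j => (f j : ℤ)) - fun j => (e j : ℤ) := by
    refine mem_ext (c := (fun j => (f j : ℤ)) - fun j => (e j : ℤ)) fun t' => ?_
    rw [Pi.sub_apply, (hef t').1, (hef t').2]
    simp
  rw [LinearMap.comp_apply, h0, map_sub]
  funext i
  rw [Pi.sub_apply]
  have h1 := congrArg (cnt (P i)) h
  rw [← Ideal.span_singleton_pow, cnt_mul _ (pow_ne_zero _ (span_ne (hB.u_ne _)))
    (span_ne (hB.prod_ne e)), cnt_pow _ (span_ne (hB.u_ne _))] at h1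
  have h2 := hB.cnt_prod_u i e
  have h3 := hB.cnt_prod_u i f
  rw [← h2, ← h3, ← h1, Pi.smul_apply, Em_apply, Finset.sum_eq_single (j0 t)]
  · simp only [Pi.single_eq_same, one_mul, smul_eq_mul]
    push_cast
    ring
  · intro j _ hj
    rw [Pi.single_eq_of_ne hj, zero_mul]
  · intro h'
    exact (h' (Finset.mem_univ _)).elim

theorem rank_range (G : GensQ P β u j0) :
    Module.rank ℤ (LinearMap.range (Em P u)) =
      ((Fintype.card κ - Fintype.card τ : ℕ) : Cardinal) := by
  classical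
  set W := LinearMap.range ((Em P u).comp (ext j0)) with hW
  have hrW : Module.rank ℤ W = ((Fintype.card κ - Fintype.card τ : ℕ) : Cardinal) := by
    rw [hW, ← (LinearEquiv.ofInjective _ (emExt_inj G)).rank_eq, rank_fun']
    congr 1
    have h1 : Fintype.card {j : κ // ∀ t, j0 t ≠ j} =
        Fintype.card {j : κ // ¬ j ∈ Finset.univ.image j0} := by
      refine Fintype.card_congr (Equiv.subtypeEquivRight fun j => ?_)
      simp
    rw [h1, Fintype.card_subtype_compl, Fintype.card_coe,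
      Finset.card_image_of_injective _ G.j0inj, Finset.card_univ]
  have hle : W ≤ LinearMap.range (Em P u) := by
    rw [hW, LinearMap.range_comp]
    exact LinearMap.map_le_range
  choose m hm hmW using red_mem G
  set n : ℕ := ∏ t, m t with hn
  have hn0 : n ≠ 0 := Finset.prod_ne_zero_iff.2 fun t _ => (hm t).ne'
  have hsing : ∀ j : κ, (n : ℤ) • Em P u (Pi.single (M := fun _ : κ => ℤ) j 1) ∈ W := by
    intro j
    by_cases h : ∀ t, j0 t ≠ j
    · refine W.smul_mem _ ⟨fun i => Pi.single (M := fun _ : κ => ℤ) j 1 i, ?_⟩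
      rw [LinearMap.comp_apply]
      congr 1
      refine mem_ext fun t => ?_
      rw [Pi.single_eq_of_ne (h t)]
    · push Not at h
      obtain ⟨t, rfl⟩ := h
      have h1 : (n : ℤ) = (∏ t' ∈ Finset.univ.erase t, (m t' : ℤ)) * m t := by
        rw [hn, Nat.cast_prod, Finset.prod_erase_mul _ _ (Finset.mem_univ t)]
      rw [h1, mul_smul]
      exact W.smul_mem _ (hmW t)
  have hall : ∀ c : κ → ℤ, (n : ℤ) • Em P u c ∈ W := by
    intro c
    have h1 : c = ∑ j, c j • Pi.single (M := fun _ : κ => ℤ) j 1 := by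
      funext i
      rw [Finset.sum_apply, Finset.sum_eq_single i]
      · simp
      · intro j _ hj
        rw [Pi.smul_apply, Pi.single_eq_of_ne hj.symm, smul_zero]
      · intro h'
        exact (h' (Finset.mem_univ _)).elim
    rw [h1, map_sum, Finset.smul_sum]
    refine W.sum_mem fun j _ => ?_
    rw [map_smul, smul_comm]
    exact W.smul_mem _ (hsing j)
  refine le_antisymm ?_ ?_
  · rw [← hrW]
    let g : LinearMap.range (Em P u) →ₗ[ℤ] W :=
      { toFun := fun x => ⟨(n : ℤ) • (x : ι → ℤ), by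
          obtain ⟨c, hc⟩ := x.2
          rw [← hc]
          exact hall c⟩
        map_add' := fun x y => by
          apply Subtype.ext
          show (n : ℤ) • ((x : ι → ℤ) + y) = (n : ℤ) • (x : ι → ℤ) + (n : ℤ) • (y : ι → ℤ)
          rw [smul_add]
        map_smul' := fun a x => by
          apply Subtype.ext
          show (n : ℤ) • (a • (x : ι → ℤ)) = a • ((n : ℤ) • (x : ι → ℤ))
          rw [smul_comm] }
    refine LinearMap.rank_le_of_injective g ?_
    intro x y hxy
    have h1 : (n : ℤ) • (x : ι → ℤ) = (n : ℤ) • (y : ι → ℤ) := congrArg Subtype.val hxy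
    apply Subtype.ext
    exact smul_right_injective _ (by exact_mod_cast hn0 : (n : ℤ) ≠ 0) h1
  · rw [← hrW]
    exact Submodule.rank_mono hle

theorem t_GenQ : StmGenQ := by
  intro D _ _ ι κ τ _ _ _ P β u j0 G
  have h1 := LinearMap.rank_range_add_rank_ker (Psi P)
  rw [LinearMap.range_eq_top.2 (toBase G).surj, rank_top, (toBase G).ker_eq, rank_range G,
    rank_fun'] at h1
  have h3 : Module.rank ℤ (Additive (ClassGroup D)) < Cardinal.aleph0 := by
    refine lt_of_le_of_lt ?_ (Cardinal.natCast_lt_aleph0 (n := Fintype.card ι))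
    rw [← h1]
    exact le_self_add
  obtain ⟨r, hr⟩ := Cardinal.lt_aleph0.1 h3
  rw [hr] at h1 ⊢
  have h4 : r + (Fintype.card κ - Fintype.card τ) = Fintype.card ι := by exact_mod_cast h1
  refine ⟨by omega, ?_⟩
  congr 1
  omega

end

end Pool.Agent.K3h24.PP
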