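import Pool.Agent.K3h27.PP.Stm

/-!
# STEP2: paths through a vertex of degree at most two
-/

set_option autoImplicit false

open Finset Pool.Agent.K3h27.PP

namespace Pool.Agent.K3h24.PP

lemma mem_P6 {V : Type} {G : SimpleGraph V} {W : Finset V} {p : V × V × V × V × V × V} :
    p ∈ P6 G W ↔ (p.1 ∈ W ∧ p.2.1 ∈ W ∧ p.2.2.1 ∈ W ∧ p.2.2.2.1 ∈ W ∧ p.2.2.2.2.1 ∈ W ∧
      p.2.2.2.2.2 ∈ W) ∧
      [p.1, p.2.1, p.2.2.1, p.2.2.2.1, p.2.2.2.2.1, p.2.2.2.2.2].Nodup ∧
      G.Adj p.1 p.2.1 ∧ G.Adj p.2.1 p.2.2.1 ∧ G.Adj p.2.2.1 p.2.2.2.1 ∧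
      G.Adj p.2.2.2.1 p.2.2.2.2.1 ∧ G.Adj p.2.2.2.2.1 p.2.2.2.2.2 := by
  classical
  unfold P6
  simp only [mem_filter, mem_product]

lemma mem_E2 {V : Type} {G : SimpleGraph V} {W : Finset V} {p : V × V} :
    p ∈ E2 G W ↔ (p.1 ∈ W ∧ p.2 ∈ W) ∧ G.Adj p.1 p.2 := by
  classical
  unfold E2
  simp only [mem_filter, mem_product]

lemma mem_nb {V : Type} {G : SimpleGraph V} {W : Finset V} {v u : V} :
    u ∈ nb G W v ↔ u ∈ W ∧ G.Adj v u := by
  classical
  unfold nb
  simp only [mem_filter]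

lemma fib {α β : Type} [DecidableEq β] (s : Finset α) (f : α → β) (t : Finset β) (m k : ℕ)
    (ht : t.card ≤ k) (hf : ∀ a ∈ s, f a ∈ t)
    (hb : ∀ b ∈ t, (s.filter (fun a => f a = b)).card ≤ m) : s.card ≤ m * k :=
  (card_le_mul_card_image_of_maps_to hf m hb).trans (Nat.mul_le_mul_left _ ht)

section

variable {V : Type} [DecidableEq V]

lemma pos1 (hE : S_EDGE) (hL : S_L3) (G : SimpleGraph V) (hG : Good G) (W : Finset V) (v : V)
    (hv : v ∈ W) (hn : (nb G W v).card ≤ 2) (h9 : 9 ≤ W.card) :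
    ((P6 G W).filter (fun p => p.1 = v)).card ≤ 2 * (W.card - 5) * (4 * (W.card - 2)) * 2 := by
  refine fib _ (fun p => p.2.1) (nb G W v) _ 2 hn ?_ ?_
  · intro p hp
    rw [mem_filter, mem_P6] at hp
    obtain ⟨⟨h1, h2, h3⟩, rfl⟩ := hp
    exact mem_nb.2 ⟨h1.2.1, h3.1⟩
  · intro a ha
    rw [mem_nb] at ha
    have hav : a ≠ v := ha.2.ne'
    have hc1 : ((W.erase v).erase a).card = W.card - 2 := by
      rw [card_erase_of_mem (mem_erase.2 ⟨hav, ha.1⟩), card_erase_of_mem hv]
      omega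
    refine fib _ (fun p => (p.2.2.2.2.1, p.2.2.2.2.2)) (E2 G ((W.erase v).erase a)) _ _
      ((hE V G hG _).trans (by rw [hc1])) ?_ ?_
    · intro p hp
      obtain ⟨x1, x2, x3, x4, x5, x6⟩ := p
      rw [mem_filter, mem_filter, mem_P6] at hp
      obtain ⟨⟨⟨h1, h2, h3⟩, h4⟩, h5⟩ := hp
      simp only at h1 h2 h3 h4 h5 ⊢
      subst h4 h5
      simp only [List.nodup_cons, List.mem_cons, List.not_mem_nil, or_false, not_or] at h2
      rw [mem_E2]
      simp only [mem_erase]
      tauto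
    · rintro ⟨z, w⟩ hzw
      rw [mem_E2] at hzw
      simp only [mem_erase] at hzw
      have hcU : (((((W.erase v).erase a).erase z)).erase w).card = W.card - 4 := by
        rw [card_erase_of_mem, card_erase_of_mem, hc1]
        · omega
        · simp only [mem_erase]; tauto
        · simp only [mem_erase]
          exact ⟨hzw.2.ne', hzw.1.2⟩
      set s := ((((P6 G W).filter (fun p => p.1 = v)).filter (fun p => p.2.1 = a)).filter
        (fun p => (p.2.2.2.2.1, p.2.2.2.2.2) = (z, w))) with hs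
      have hmem : ∀ p ∈ s, p.1 = v ∧ p.2.1 = a ∧ p.2.2.2.2.1 = z ∧ p.2.2.2.2.2 = w ∧
          p ∈ P6 G W := by
        intro p hp
        rw [hs, mem_filter, mem_filter, mem_filter] at hp
        have := Prod.mk.inj hp.2
        exact ⟨hp.1.1.2, hp.1.2, this.1, this.2, hp.1.1.1⟩
      have hinj : Set.InjOn (fun p : V × V × V × V × V × V => (p.2.2.1, p.2.2.2.1)) s := by
        intro p hp q hq hpq
        have h1 := hmem p hp
        have h2 := hmem q hq
        have h3 := Prod.mk.inj hpq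
        obtain ⟨x1, x2, x3, x4, x5, x6⟩ := p
        obtain ⟨y1, y2, y3, y4, y5, y6⟩ := q
        simp only at h1 h2 h3
        simp only [Prod.mk.injEq]
        rw [h1.1, h1.2.1, h1.2.2.1, h1.2.2.2.1, h2.1, h2.2.1, h2.2.2.1, h2.2.2.2.1]
        tauto
      rw [← card_image_of_injOn hinj]
      have h6 := hL V G hG.c6 ((((W.erase v).erase a).erase z).erase w) a z
        (fun h => hzw.1.1.1 h.symm) (by simp) (by simp)
        (s.image (fun p => (p.2.2.1, p.2.2.2.1))) ?_
      · rw [hcU] at h6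
        refine h6.trans ?_
        rw [max_le_iff]
        omega
      · intro q hq
        obtain ⟨p, hp, rfl⟩ := mem_image.1 hq
        obtain ⟨h1, h2, h3, h4, h5⟩ := hmem p hp
        rw [mem_P6] at h5
        obtain ⟨x1, x2, x3, x4, x5, x6⟩ := p
        simp only at h1 h2 h3 h4 h5 ⊢
        subst h1 h2 h3 h4
        simp only [List.nodup_cons, List.mem_cons, List.not_mem_nil, or_false, not_or] at h5
        simp only [mem_erase]
        grind

lemma pos2 (hL : S_L3) (G : SimpleGraph V) (hG : Good G) (W : Finset V) (v : V)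
    (hv : v ∈ W) (hn : (nb G W v).card ≤ 2) (h9 : 9 ≤ W.card) :
    ((P6 G W).filter (fun p => p.2.1 = v)).card ≤ 2 * (W.card - 5) * (W.card - 3) * 2 := by
  have hoff : (nb G W v).offDiag.card ≤ 2 := by
    rw [offDiag_card]
    have : (nb G W v).card * (nb G W v).card ≤ 2 * (nb G W v).card := Nat.mul_le_mul_right _ hn
    omega
  refine fib _ (fun p => (p.1, p.2.2.1)) (nb G W v).offDiag _ 2 hoff ?_ ?_
  · intro p hp
    obtain ⟨x1, x2, x3, x4, x5, x6⟩ := p
    rw [mem_filter, mem_P6] at hp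
    rw [mem_offDiag, mem_nb, mem_nb]
    simp only [List.nodup_cons, List.mem_cons, List.not_mem_nil, or_false, not_or] at hp ⊢
    have := hp.1.2.2.1.symm
    grind
  · rintro ⟨a, b⟩ hab
    rw [mem_offDiag, mem_nb, mem_nb] at hab
    simp only at hab
    have hav : a ≠ v := hab.1.2.ne'
    have hbv : b ≠ v := hab.2.1.2.ne'
    have hc1 : (((W.erase v).erase a).erase b).card = W.card - 3 := by
      rw [card_erase_of_mem, card_erase_of_mem, card_erase_of_mem hv]
      · omega
      · simp only [mem_erase]; exact ⟨hav, hab.1.1⟩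
      · simp only [mem_erase]; exact ⟨hab.2.2.symm, hbv, hab.2.1.1⟩
    refine fib _ (fun p => p.2.2.2.2.2) (((W.erase v).erase a).erase b) _ _ hc1.le ?_ ?_
    · intro p hp
      obtain ⟨x1, x2, x3, x4, x5, x6⟩ := p
      rw [mem_filter, mem_filter, mem_P6] at hp
      obtain ⟨⟨⟨h1, h2, h3⟩, h4⟩, h5⟩ := hp
      have h6 := Prod.mk.inj h5
      simp only at h1 h2 h3 h4 h5 h6 ⊢
      simp only [List.nodup_cons, List.mem_cons, List.not_mem_nil, or_false, not_or] at h2
      simp only [mem_erase]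
      grind
    · intro z hz
      simp only [mem_erase] at hz
      have hcU : ((((W.erase v).erase a).erase b).erase z).card = W.card - 4 := by
        rw [card_erase_of_mem, hc1]
        · omega
        · simp only [mem_erase]; exact hz
      set s := ((((P6 G W).filter (fun p => p.2.1 = v)).filter
        (fun p => (p.1, p.2.2.1) = (a, b))).filter (fun p => p.2.2.2.2.2 = z)) with hs
      have hmem : ∀ p ∈ s, p.2.1 = v ∧ p.1 = a ∧ p.2.2.1 = b ∧ p.2.2.2.2.2 = z ∧
          p ∈ P6 G W := by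
        intro p hp
        rw [hs, mem_filter, mem_filter, mem_filter] at hp
        have := Prod.mk.inj hp.1.2
        exact ⟨hp.1.1.2, this.1, this.2, hp.2, hp.1.1.1⟩
      have hinj : Set.InjOn (fun p : V × V × V × V × V × V => (p.2.2.2.1, p.2.2.2.2.1)) s := by
        intro p hp q hq hpq
        have h1 := hmem p hp
        have h2 := hmem q hq
        have h3 := Prod.mk.inj hpq
        obtain ⟨x1, x2, x3, x4, x5, x6⟩ := p
        obtain ⟨y1, y2, y3, y4, y5, y6⟩ := q
        simp only at h1 h2 h3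
        simp only [Prod.mk.injEq]
        rw [h1.1, h1.2.1, h1.2.2.1, h1.2.2.2.1, h2.1, h2.2.1, h2.2.2.1, h2.2.2.2.1]
        tauto
      rw [← card_image_of_injOn hinj]
      have h6 := hL V G hG.c6 ((((W.erase v).erase a).erase b).erase z) b z
        (fun h => hz.1 h.symm) (by simp) (by simp)
        (s.image (fun p => (p.2.2.2.1, p.2.2.2.2.1))) ?_
      · rw [hcU] at h6
        refine h6.trans ?_
        rw [max_le_iff]
        omega
      · intro q hq
        obtain ⟨p, hp, rfl⟩ := mem_image.1 hq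
        obtain ⟨h1, h2, h3, h4, h5⟩ := hmem p hp
        rw [mem_P6] at h5
        obtain ⟨x1, x2, x3, x4, x5, x6⟩ := p
        simp only at h1 h2 h3 h4 h5 ⊢
        subst h1 h2 h3 h4
        simp only [List.nodup_cons, List.mem_cons, List.not_mem_nil, or_false, not_or] at h5
        simp only [mem_erase]
        grind

lemma pos3 (hE : S_EDGE) (G : SimpleGraph V) (hG : Good G) (W : Finset V) (v : V)
    (hv : v ∈ W) (hn : (nb G W v).card ≤ 2) (h9 : 9 ≤ W.card) :
    ((P6 G W).filter (fun p => p.2.2.1 = v)).card ≤ (W.card - 5) * (4 * (W.card - 3)) * 2 := by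
  have hoff : (nb G W v).offDiag.card ≤ 2 := by
    rw [offDiag_card]
    have : (nb G W v).card * (nb G W v).card ≤ 2 * (nb G W v).card := Nat.mul_le_mul_right _ hn
    omega
  refine fib _ (fun p => (p.2.1, p.2.2.2.1)) (nb G W v).offDiag _ 2 hoff ?_ ?_
  · intro p hp
    obtain ⟨x1, x2, x3, x4, x5, x6⟩ := p
    rw [mem_filter, mem_P6] at hp
    rw [mem_offDiag, mem_nb, mem_nb]
    simp only [List.nodup_cons, List.mem_cons, List.not_mem_nil, or_false, not_or] at hp ⊢
    have := hp.1.2.2.2.1.symm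
    grind
  · rintro ⟨a, b⟩ hab
    rw [mem_offDiag, mem_nb, mem_nb] at hab
    simp only at hab
    have hav : a ≠ v := hab.1.2.ne'
    have hbv : b ≠ v := hab.2.1.2.ne'
    have hc1 : (((W.erase v).erase a).erase b).card = W.card - 3 := by
      rw [card_erase_of_mem, card_erase_of_mem, card_erase_of_mem hv]
      · omega
      · simp only [mem_erase]; exact ⟨hav, hab.1.1⟩
      · simp only [mem_erase]; exact ⟨hab.2.2.symm, hbv, hab.2.1.1⟩
    refine fib _ (fun p => (p.2.2.2.2.1, p.2.2.2.2.2)) (E2 G (((W.erase v).erase a).erase b)) _ _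
      ((hE V G hG _).trans (by rw [hc1])) ?_ ?_
    · intro p hp
      obtain ⟨x1, x2, x3, x4, x5, x6⟩ := p
      rw [mem_filter, mem_filter, mem_P6] at hp
      obtain ⟨⟨⟨h1, h2, h3⟩, h4⟩, h5⟩ := hp
      have h6 := Prod.mk.inj h5
      simp only at h1 h2 h3 h4 h5 h6 ⊢
      simp only [List.nodup_cons, List.mem_cons, List.not_mem_nil, or_false, not_or] at h2
      rw [mem_E2]
      simp only [mem_erase]
      grind
    · rintro ⟨z, w⟩ hzw
      rw [mem_E2] at hzw
      simp only [mem_erase] at hzw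
      have hcU : (((((W.erase v).erase a).erase b).erase z).erase w).card = W.card - 5 := by
        rw [card_erase_of_mem, card_erase_of_mem, hc1]
        · omega
        · simp only [mem_erase]; tauto
        · simp only [mem_erase]
          exact ⟨hzw.2.ne', hzw.1.2⟩
      set s := ((((P6 G W).filter (fun p => p.2.2.1 = v)).filter
        (fun p => (p.2.1, p.2.2.2.1) = (a, b))).filter
        (fun p => (p.2.2.2.2.1, p.2.2.2.2.2) = (z, w))) with hs
      have hmem : ∀ p ∈ s, p.2.2.1 = v ∧ p.2.1 = a ∧ p.2.2.2.1 = b ∧ p.2.2.2.2.1 = z ∧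
          p.2.2.2.2.2 = w ∧ p ∈ P6 G W := by
        intro p hp
        rw [hs, mem_filter, mem_filter, mem_filter] at hp
        have h1 := Prod.mk.inj hp.1.2
        have h2 := Prod.mk.inj hp.2
        exact ⟨hp.1.1.2, h1.1, h1.2, h2.1, h2.2, hp.1.1.1⟩
      rw [← hcU]
      refine card_le_card_of_injOn (fun p => p.1) ?_ ?_
      · intro p hp
        obtain ⟨h1, h2, h3, h4, h5, h6⟩ := hmem p hp
        rw [mem_P6] at h6
        obtain ⟨x1, x2, x3, x4, x5, x6⟩ := p
        simp only at h1 h2 h3 h4 h5 h6 ⊢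
        subst h1 h2 h3 h4 h5
        simp only [List.nodup_cons, List.mem_cons, List.not_mem_nil, or_false, not_or] at h6
        simp only [coe_erase, Set.mem_sdiff, mem_coe, Set.mem_singleton_iff]
        grind
      · intro p hp q hq hpq
        have h1 := hmem p hp
        have h2 := hmem q hq
        obtain ⟨x1, x2, x3, x4, x5, x6⟩ := p
        obtain ⟨y1, y2, y3, y4, y5, y6⟩ := q
        simp only at h1 h2 hpq
        simp only [Prod.mk.injEq]
        grind

/-- reversal -/
def rev (p : V × V × V × V × V × V) : V × V × V × V × V × V :=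
  (p.2.2.2.2.2, p.2.2.2.2.1, p.2.2.2.1, p.2.2.1, p.2.1, p.1)

omit [DecidableEq V] in
lemma rev_mem {G : SimpleGraph V} {W : Finset V} {p : V × V × V × V × V × V}
    (hp : p ∈ P6 G W) : rev p ∈ P6 G W := by
  obtain ⟨x1, x2, x3, x4, x5, x6⟩ := p
  rw [mem_P6] at hp ⊢
  unfold rev
  simp only [List.nodup_cons, List.mem_cons, List.not_mem_nil, or_false, not_or] at hp ⊢
  have h1 := hp.2.2.1.symm
  have h2 := hp.2.2.2.1.symm
  have h3 := hp.2.2.2.2.1.symm
  have h4 := hp.2.2.2.2.2.1.symm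
  have h5 := hp.2.2.2.2.2.2.symm
  grind

omit [DecidableEq V] in
lemma rev_inj : Function.Injective (rev : V × V × V × V × V × V → _) := by
  rintro ⟨x1, x2, x3, x4, x5, x6⟩ ⟨y1, y2, y3, y4, y5, y6⟩ h
  unfold rev at h
  simp only [Prod.mk.injEq] at h ⊢
  tauto

end

theorem t_STEP2 (hE : S_EDGE) (hL : S_L3) : S_STEP2 := by
  intro V _ G hG W v hv hn h9
  have p1 := pos1 hE hL G hG W v hv hn h9
  have p2 := pos2 hL G hG W v hv hn h9
  have p3 := pos3 hE G hG W v hv hn h9
  have p6 : ((P6 G W).filter (fun p => p.2.2.2.2.2 = v)).card ≤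
      ((P6 G W).filter (fun p => p.1 = v)).card :=
    card_le_card_of_injOn rev (fun p hp => by
      rw [mem_coe, mem_filter] at hp ⊢
      exact ⟨rev_mem hp.1, hp.2⟩) rev_inj.injOn
  have p5 : ((P6 G W).filter (fun p => p.2.2.2.2.1 = v)).card ≤
      ((P6 G W).filter (fun p => p.2.1 = v)).card :=
    card_le_card_of_injOn rev (fun p hp => by
      rw [mem_coe, mem_filter] at hp ⊢
      exact ⟨rev_mem hp.1, hp.2⟩) rev_inj.injOn
  have p4 : ((P6 G W).filter (fun p => p.2.2.2.1 = v)).card ≤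
      ((P6 G W).filter (fun p => p.2.2.1 = v)).card :=
    card_le_card_of_injOn rev (fun p hp => by
      rw [mem_coe, mem_filter] at hp ⊢
      exact ⟨rev_mem hp.1, hp.2⟩) rev_inj.injOn
  have hsub : P6 G W ⊆ P6 G (W.erase v) ∪ ((P6 G W).filter (fun p => p.1 = v) ∪
      ((P6 G W).filter (fun p => p.2.1 = v) ∪ ((P6 G W).filter (fun p => p.2.2.1 = v) ∪
      ((P6 G W).filter (fun p => p.2.2.2.1 = v) ∪ ((P6 G W).filter (fun p => p.2.2.2.2.1 = v) ∪
      (P6 G W).filter (fun p => p.2.2.2.2.2 = v)))))) := by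
    intro p hp
    simp only [mem_union, mem_filter]
    by_cases h : p.1 = v ∨ p.2.1 = v ∨ p.2.2.1 = v ∨ p.2.2.2.1 = v ∨ p.2.2.2.2.1 = v ∨
      p.2.2.2.2.2 = v
    · right
      tauto
    · left
      rw [mem_P6] at hp ⊢
      simp only [mem_erase]
      tauto
  have hcard := (card_le_card hsub).trans (card_union_le _ _)
  have u1 := card_union_le ((P6 G W).filter (fun p => p.1 = v))
      ((P6 G W).filter (fun p => p.2.1 = v) ∪ ((P6 G W).filter (fun p => p.2.2.1 = v) ∪
      ((P6 G W).filter (fun p => p.2.2.2.1 = v) ∪ ((P6 G W).filter (fun p => p.2.2.2.2.1 = v) ∪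
      (P6 G W).filter (fun p => p.2.2.2.2.2 = v)))))
  have u2 := card_union_le
      ((P6 G W).filter (fun p => p.2.1 = v)) ((P6 G W).filter (fun p => p.2.2.1 = v) ∪
      ((P6 G W).filter (fun p => p.2.2.2.1 = v) ∪ ((P6 G W).filter (fun p => p.2.2.2.2.1 = v) ∪
      (P6 G W).filter (fun p => p.2.2.2.2.2 = v))))
  have u3 := card_union_le ((P6 G W).filter (fun p => p.2.2.1 = v))
      ((P6 G W).filter (fun p => p.2.2.2.1 = v) ∪ ((P6 G W).filter (fun p => p.2.2.2.2.1 = v) ∪
      (P6 G W).filter (fun p => p.2.2.2.2.2 = v)))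
  have u4 := card_union_le
      ((P6 G W).filter (fun p => p.2.2.2.1 = v)) ((P6 G W).filter (fun p => p.2.2.2.2.1 = v) ∪
      (P6 G W).filter (fun p => p.2.2.2.2.2 = v))
  have u5 := card_union_le ((P6 G W).filter (fun p => p.2.2.2.2.1 = v))
      ((P6 G W).filter (fun p => p.2.2.2.2.2 = v))
  obtain ⟨m, hm⟩ : ∃ m, W.card = m + 9 := ⟨W.card - 9, by omega⟩
  rw [hm] at p1 p2 p3 ⊢
  have e1 : 2 * (m + 9 - 5) * (4 * (m + 9 - 2)) * 2 = 16 * m * m + 176 * m + 448 := by
    rw [show m + 9 - 5 = m + 4 by omega, show m + 9 - 2 = m + 7 by omega]; ring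
  have e2 : 2 * (m + 9 - 5) * (m + 9 - 3) * 2 = 4 * m * m + 40 * m + 96 := by
    rw [show m + 9 - 5 = m + 4 by omega, show m + 9 - 3 = m + 6 by omega]; ring
  have e3 : (m + 9 - 5) * (4 * (m + 9 - 3)) * 2 = 8 * m * m + 80 * m + 192 := by
    rw [show m + 9 - 5 = m + 4 by omega, show m + 9 - 3 = m + 6 by omega]; ring
  have e4 : 2 * ((m + 9 - 5) * (28 * (m + 9) - 68)) = 56 * m * m + 592 * m + 1472 := by
    rw [show m + 9 - 5 = m + 4 by omega, show 28 * (m + 9) - 68 = 28 * m + 184 by omega]; ring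
  rw [e1] at p1
  rw [e2] at p2
  rw [e3] at p3
  rw [e4]
  linarith

end Pool.Agent.K3h24.PP
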